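import Mathlib
import Pool.Agent.MP_36f78e_lc.H75.Spec

/-!
Analysis of the five-query test.
-/

set_option linter.unusedSectionVars false

namespace Pool.Agent.MP_36f78e_lc.H70

open Pool.Agent.MP_36f78e_lc.H24 Pool.Agent.MP_36f78e_lc.H24.Cl Pool.Agent.MP_36f78e_lc.H75
open Finset Matrix
open scoped BigOperators

variable {n : ℕ}

lemma had_elim (x y : Fin n → Bool) (a b : Fin 4 → Bool) :
    had n (Sum.elim x a) (Sum.elim y b) = if a = b then Hn n x y else 0 :=
  if_congr funext_iff.symm rfl rfl

lemma had_unitary : had n ∈ unitaryGroup (Fin n ⊕ Fin 4 → Bool) ℂ := by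
  rw [mem_unitaryGroup_iff]
  ext x y
  rw [mul_apply, one_apply, sum_split, elim_self x, elim_self y]
  generalize (fun i => x (Sum.inl i)) = x1
  generalize (fun i => y (Sum.inl i)) = y1
  generalize (fun i => x (Sum.inr i)) = x2
  generalize (fun i => y (Sum.inr i)) = y2
  simp only [star_apply, had_elim, ite_mul, zero_mul, sum_ite_eq, mem_univ, if_true,
    Sum.elim_eq_iff]
  by_cases h : y2 = x2
  · simp only [h, if_true, and_true, Hn_orth]
  · simp [h, Ne.symm h]

lemma zed_unitary : zed n ∈ unitaryGroup (Fin n ⊕ Fin 4 → Bool) ℂ := by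
  rw [mem_unitaryGroup_iff, zed, star_eq_conjTranspose, diagonal_conjTranspose,
    diagonal_mul_diagonal, ← diagonal_one]
  congr 1
  funext x
  by_cases h : x (Sum.inr 3) = true <;> simp [h]

lemma mem_check (g : Gate (Fin n ⊕ Fin 4)) (h : g ∈ (check n).gates) :
    g = Sum.inl (had n) ∨ g = Sum.inl (zed n) ∨ g = call n 2 2 0 ∨ g = call n 2 0 1 ∨
      g = call n 0 2 3 ∨ g = call n 0 0 2 := by
  have h' : g ∈ [Sum.inl (had n), call n 2 2 0, Sum.inl (had n), call n 2 0 1, call n 0 2 3,
    Sum.inl (zed n), call n 0 2 3, Sum.inl (had n), call n 0 0 2] := h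
  simp only [List.mem_cons, List.not_mem_nil, or_false] at h'
  tauto

lemma call_ok {u v t : Fin 4} (hu : t ≠ u) (hv : t ≠ v) {l : List (Fin n ⊕ Fin 4)}
    {s : Fin n ⊕ Fin 4} (h : Sum.inr (l, s) = call n u v t) : s ∉ l := by
  cases h
  simp [List.mem_ofFn, hu, hv]

lemma check_valid (n : ℕ) : (check n).Valid := by
  constructor
  · intro U hU
    rcases mem_check _ hU with h | h | h | h | h | h
    · cases h; exact had_unitary
    · cases h; exact zed_unitary
    all_goals cases h
  · intro l t h
    rcases mem_check _ h with h | h | h | h | h | h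
    · cases h
    · cases h
    all_goals exact call_ok (by decide) (by decide) h

lemma act_had (A : List Bool → Bool) (v : (Fin n ⊕ Fin 4 → Bool) → ℂ) (x : Fin n → Bool)
    (a : Fin 4 → Bool) :
    act A (Sum.inl (had n)) v (Sum.elim x a) = ∑ z, Hn n x z * v (Sum.elim z a) := by
  simp only [act, mulVec, dotProduct]
  rw [sum_split]
  simp only [had_elim, ite_mul, zero_mul, sum_ite_eq, mem_univ, if_true]

lemma act_zed (A : List Bool → Bool) (v : (Fin n ⊕ Fin 4 → Bool) → ℂ) (x : Fin n → Bool)
    (a : Fin 4 → Bool) :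
    act A (Sum.inl (zed n)) v (Sum.elim x a) =
      (if a 3 = true then -1 else 1) * v (Sum.elim x a) := by
  simp only [act, zed, mulVec_diagonal, Sum.elim_inr]
  rfl

lemma act_call (A : List Bool → Bool) (u v t : Fin 4) (s : (Fin n ⊕ Fin 4 → Bool) → ℂ)
    (x : Fin n → Bool) (a : Fin 4 → Bool) :
    act A (call n u v t) s (Sum.elim x a) =
      s (Sum.elim x (Function.update a t (xor (a t) (A (a u :: a v :: List.ofFn x))))) := by
  have h : (List.ofFn Sum.inl).map (Sum.elim x a) = List.ofFn x := by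
    rw [List.map_ofFn]; rfl
  simp only [call, act, List.map_cons, Sum.elim_inr, h, Sum.update_elim_inr]

lemma up0 (a b c d e : Bool) : Function.update ![a, b, c, d] 0 e = ![e, b, c, d] := by
  funext i; fin_cases i <;> simp

lemma up1 (a b c d e : Bool) : Function.update ![a, b, c, d] 1 e = ![a, e, c, d] := by
  funext i; fin_cases i <;> simp

lemma up2 (a b c d e : Bool) : Function.update ![a, b, c, d] 2 e = ![a, b, e, d] := by
  funext i; fin_cases i <;> simp

lemma up3 (a b c d e : Bool) : Function.update ![a, b, c, d] 3 e = ![a, b, c, e] := by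
  funext i; fin_cases i <;> simp

lemma init_four (w : (Fin n → Bool) → ℂ) (x : Fin n → Bool) (a b c d : Bool) :
    init 4 w (Sum.elim x ![a, b, c, d]) =
      if a = false ∧ b = false ∧ c = false ∧ d = false then w x else 0 := by
  simp [init, Fin.forall_fin_succ]

/-- the state after the first three gates -/
lemma st3 (A : List Bool → Bool) (w : (Fin n → Bool) → ℂ) (z : Fin n → Bool) (b c d : Bool) :
    act A (Sum.inl (had n)) (act A (call n 2 2 0) (act A (Sum.inl (had n)) (init 4 w)))
      (Sum.elim z ![true, b, c, d]) =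
      if b = false ∧ c = false ∧ d = false then
        ∑ g ∈ pt A n false false, Hn n z g * (Hn n *ᵥ w) g else 0 := by
  simp only [act_had, act_call, up0, init_four, cons_val_zero, Matrix.cons_val]
  split_ifs with h
  · obtain ⟨rfl, rfl, rfl⟩ := h
    rw [pt, sum_filter]
    refine sum_congr rfl fun g _ => ?_
    cases A (false :: false :: List.ofFn g) <;> simp [mulVec, dotProduct]
  · simp [h]

/-- the final state -/
noncomputable def fin (A : List Bool → Bool) (w : (Fin n → Bool) → ℂ) :
    (Fin n ⊕ Fin 4 → Bool) → ℂ :=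
  act A (call n 0 0 2) (act A (Sum.inl (had n)) (act A (call n 0 2 3)
    (act A (Sum.inl (zed n)) (act A (call n 0 2 3) (act A (call n 2 0 1)
    (act A (Sum.inl (had n)) (act A (call n 2 2 0) (act A (Sum.inl (had n)) (init 4 w)))))))))

/-- the final amplitudes of the accepting outcomes -/
lemma amp (A : List Bool → Bool) (w : (Fin n → Bool) → ℂ) (e : Fin n → Bool) (d : Bool) :
    fin A w (Sum.elim e ![true, true, true, d]) =
      if d = false ∧ A (true :: true :: List.ofFn e) = true then
        ∑ z ∈ pt A n false true, Hn n e z * (sig A z : ℂ) *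
          ∑ g ∈ pt A n false false, Hn n z g * (Hn n *ᵥ w) g else 0 := by
  unfold fin
  have h3 := st3 A w
  generalize act A (Sum.inl (had n)) (act A (call n 2 2 0)
    (act A (Sum.inl (had n)) (init 4 w))) = s at h3
  simp only [act_had, act_call, act_zed, up1, up2, up3, cons_val_zero, cons_val_one,
    Matrix.cons_val, h3]
  cases A (true :: true :: List.ofFn e)
  · simp
  · cases d
    · simp only [and_self, if_true, Bool.xor_self]
      conv_rhs => rw [pt, sum_filter]
      refine sum_congr rfl fun z _ => ?_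
      unfold sig sg
      cases A (false :: true :: List.ofFn z) <;> cases A (true :: false :: List.ofFn z) <;> simp
    · simp

lemma check_acc (A : List Bool → Bool) (w : (Fin n → Bool) → ℂ) :
    (check n).accProb A w = ∑ e ∈ pt A n true true,
      ‖∑ z ∈ pt A n false true, Hn n e z * (sig A z : ℂ) *
        ∑ g ∈ pt A n false false, Hn n z g * (Hn n *ᵥ w) g‖ ^ 2 := by
  rw [accProb_eq]
  change ∑ z ∈ univ.filter (fun z : Fin n ⊕ Fin 4 → Bool =>
    z (Sum.inr 0) = true ∧ z (Sum.inr 1) = true ∧ z (Sum.inr 2) = true),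
      ‖fin A w z‖ ^ 2 = _
  rw [sum_filter, sum_split]
  conv_rhs => rw [pt, sum_filter]
  refine sum_congr rfl fun e _ => ?_
  rw [sum_eq_single ![true, true, true, false]]
  · rw [if_pos (by simp), amp]
    cases A (true :: true :: List.ofFn e) <;> simp
  · intro a _ ha
    split_ifs with h
    · have : a = ![true, true, true, true] := by
        obtain ⟨h0, h1, h2⟩ := h
        funext i
        fin_cases i
        · exact h0
        · exact h1
        · exact h2
        · by_contra h3
          apply ha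
          funext j
          fin_cases j
          · exact h0
          · exact h1
          · exact h2
          · simpa using h3
      rw [this, amp]
      simp
    · rfl
  · simp

lemma Hn_rs (x y : Fin n → Bool) : Hn n x y = ((rs x y / √2 ^ n : ℝ) : ℂ) := by
  rw [Hn_eq, sgn, rs]
  push_cast
  congr 1
  exact prod_congr rfl fun i _ => by split_ifs <;> simp

lemma rs_comm (x y : Fin n → Bool) : rs x y = rs y x := by
  simp only [rs, and_comm]

lemma sq2 (n : ℕ) : (√2 : ℝ) ^ n * √2 ^ n = 2 ^ n := by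
  rw [← mul_pow, Real.mul_self_sqrt (by norm_num)]

lemma Hn_Hn (x y : Fin n → Bool) : ∑ z, Hn n x z * Hn n z y = if x = y then 1 else 0 := by
  rw [← Hn_orth]
  refine sum_congr rfl fun z _ => ?_
  rw [Hn_rs z y, Hn_rs y z, rs_comm z y, Complex.star_def, Complex.conj_ofReal]

lemma rs_orth (x y : Fin n → Bool) : ∑ e, rs e x * rs e y = if x = y then 2 ^ n else 0 := by
  have h := Hn_Hn x y
  have h2 : (0 : ℝ) < √2 ^ n := by positivity
  have h3 : ∑ e, rs e x * rs e y / 2 ^ n = if x = y then 1 else 0 := by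
    apply Complex.ofReal_injective
    rw [Complex.ofReal_sum, apply_ite ((↑) : ℝ → ℂ), Complex.ofReal_one, Complex.ofReal_zero, ← h]
    refine sum_congr rfl fun e _ => ?_
    rw [Hn_rs, Hn_rs, ← Complex.ofReal_mul, div_mul_div_comm, sq2, rs_comm x e]
  rw [← sum_div, div_eq_iff (by positivity)] at h3
  rw [h3]
  split_ifs <;> simp

lemma parseval (O : Finset (Fin n → Bool)) (u v : (Fin n → Bool) → ℝ) :
    ∑ e, (∑ z ∈ O, rs e z * u z) * (∑ z ∈ O, rs e z * v z) = 2 ^ n * ∑ z ∈ O, u z * v z := by
  simp only [sum_mul_sum]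
  rw [sum_comm, mul_sum]
  refine sum_congr rfl fun z hz => ?_
  rw [sum_comm]
  have : ∀ y ∈ O, ∑ e, rs e z * u z * (rs e y * v y) =
      if z = y then 2 ^ n * (u z * v y) else 0 := by
    intro y _
    have : ∀ e, rs e z * u z * (rs e y * v y) = rs e z * rs e y * (u z * v y) := fun e => by ring
    simp only [this]
    rw [← sum_mul, rs_orth]
    split_ifs <;> simp
  rw [sum_congr rfl this, sum_ite_eq, if_pos hz]

lemma nsq_Hn (w : (Fin n → Bool) → ℂ) (hw : IsState w) : ∑ g, ‖(Hn n *ᵥ w) g‖ ^ 2 = 1 := by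
  have h1 := nr_unitary (Hn n) (mem_unitaryGroup_iff'.1 Hn_unitary) w
  have h2 : nsq w = 1 := hw
  change nsq (Hn n *ᵥ w) = 1
  rw [← nr_sq, h1, nr_sq, h2]

lemma check_le_one (A : List Bool → Bool) (w : (Fin n → Bool) → ℂ) (hw : IsState w) :
    (check n).accProb A w ≤ 1 := by
  have h1 : nsq (run A (check n).gates (init (check n).q w)) = 1 := by
    rw [← nr_sq, nr_run A _ (check_valid n).gv, nr_sq, nsq_init]
    exact hw
  rw [accProb_eq, ← h1]
  exact sum_le_sum_of_subset_of_nonneg (subset_univ _) fun _ _ _ => sq_nonneg _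

lemma check_sound (A : List Bool → Bool) (w : (Fin n → Bool) → ℂ) (hw : IsState w) :
    (check n).accProb A w ≤ ∑ e ∈ pt A n true true, ∑ g ∈ pt A n false false,
      ((∑ z ∈ pt A n false true, rs e z * sig A z * rs g z) / 2 ^ n) ^ 2 := by
  rw [check_acc]
  refine sum_le_sum fun e _ => ?_
  have e1 : ∑ z ∈ pt A n false true, Hn n e z * (sig A z : ℂ) *
      ∑ g ∈ pt A n false false, Hn n z g * (Hn n *ᵥ w) g = ∑ g ∈ pt A n false false,
        (((∑ z ∈ pt A n false true, rs e z * sig A z * rs g z) / 2 ^ n : ℝ) : ℂ) *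
          (Hn n *ᵥ w) g := by
    simp only [mul_sum]
    rw [sum_comm]
    refine sum_congr rfl fun g _ => ?_
    rw [sum_div, Complex.ofReal_sum, sum_mul]
    refine sum_congr rfl fun z _ => ?_
    rw [← mul_assoc, Hn_rs e z, Hn_rs z g, ← Complex.ofReal_mul, ← Complex.ofReal_mul, ← sq2,
      rs_comm z g]
    congr 2
    ring
  rw [e1]
  calc _ ≤ (∑ g ∈ pt A n false false,
        |(∑ z ∈ pt A n false true, rs e z * sig A z * rs g z) / 2 ^ n| *
          ‖(Hn n *ᵥ w) g‖) ^ 2 := by
        refine pow_le_pow_left₀ (norm_nonneg _) ((norm_sum_le _ _).trans (le_of_eq ?_)) 2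
        simp only [norm_mul, Complex.norm_real, Real.norm_eq_abs]
    _ ≤ (∑ g ∈ pt A n false false,
        |(∑ z ∈ pt A n false true, rs e z * sig A z * rs g z) / 2 ^ n| ^ 2) *
          ∑ g ∈ pt A n false false, ‖(Hn n *ᵥ w) g‖ ^ 2 := sum_mul_sq_le_sq_mul_sq _ _ _
    _ ≤ (∑ g ∈ pt A n false false,
        |(∑ z ∈ pt A n false true, rs e z * sig A z * rs g z) / 2 ^ n| ^ 2) * 1 :=
        mul_le_mul_of_nonneg_left ((sum_le_sum_of_subset_of_nonneg (subset_univ _)
          fun _ _ _ => sq_nonneg _).trans (nsq_Hn w hw).le) (sum_nonneg fun _ _ => sq_nonneg _)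
    _ = _ := by simp only [sq_abs, mul_one]

lemma check_subset (A : List Bool → Bool)
    (hG : ∀ e ∉ pt A n false false, ∑ z ∈ pt A n false true, rs e z = 0)
    (w : (Fin n → Bool) → ℂ) (hw : w = subsetState (pt A n false true)) :
    (check n).accProb A w =
      (∑ e ∈ pt A n true true, (∑ z ∈ pt A n false true, rs e z * sig A z) ^ 2) /
        (2 ^ n * (pt A n false true).card) := by
  rw [check_acc, sum_div, hw]
  set O := pt A n false true with hO
  have e1 : ∀ g ∉ pt A n false false, (Hn n *ᵥ subsetState O) g = 0 := by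
    intro g hg
    simp only [mulVec, dotProduct]
    rw [← sum_subset (subset_univ O) fun z _ hz => by simp [subsetState, hz],
      sum_congr rfl fun z hz => by rw [subsetState, if_pos hz, Hn_rs], ← sum_mul,
      ← Complex.ofReal_sum, ← sum_div, hG g hg]
    simp
  have e2 : ∀ z, ∑ g ∈ pt A n false false, Hn n z g * (Hn n *ᵥ subsetState O) g =
      subsetState O z := by
    intro z
    rw [sum_subset (subset_univ _) fun g _ hg => by rw [e1 g hg, mul_zero]]
    simp only [mulVec, dotProduct, mul_sum]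
    rw [sum_comm]
    simp only [← mul_assoc, ← sum_mul, Hn_Hn, ite_mul, one_mul, zero_mul, sum_ite_eq, mem_univ,
      if_true]
  refine sum_congr rfl fun e _ => ?_
  have e3 : ∑ z ∈ O, Hn n e z * (sig A z : ℂ) *
      ∑ g ∈ pt A n false false, Hn n z g * (Hn n *ᵥ subsetState O) g =
      (((∑ z ∈ O, rs e z * sig A z) / (√2 ^ n * √O.card) : ℝ) : ℂ) := by
    rw [sum_div, Complex.ofReal_sum]
    refine sum_congr rfl fun z hz => ?_
    rw [e2, subsetState, if_pos hz, Hn_rs]
    push_cast
    ring
  rw [e3, Complex.norm_real, Real.norm_eq_abs, sq_abs, div_pow, mul_pow, sq (√2 ^ n), sq2,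
    Real.sq_sqrt (Nat.cast_nonneg _)]

theorem checkOK : CheckStmt := by
  intro n
  refine ⟨check_valid n, fun A => ⟨check_le_one A, check_sound A, ?_⟩⟩
  intro hO hG W hW
  refine le_of_le_of_eq ?_ (check_subset A hG _ rfl).symm
  set O := pt A n false true with hO'
  have hc : (0 : ℝ) < O.card := by exact_mod_cast hO.card_pos
  have h2 : (0 : ℝ) < 2 ^ n := by positivity
  rw [← mul_div_mul_left _ _ h2.ne']
  refine div_le_div_of_nonneg_right ?_ (by positivity)
  have e1 : 2 ^ n * ∑ z ∈ O, (2 * (sig A z * W z) - W z ^ 2) =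
      ∑ e, (2 * ((∑ z ∈ O, rs e z * sig A z) * ∑ z ∈ O, rs e z * W z) -
        (∑ z ∈ O, rs e z * W z) * ∑ z ∈ O, rs e z * W z) := by
    rw [sum_sub_distrib, sum_sub_distrib, ← mul_sum, ← mul_sum, parseval, parseval]
    simp only [sq]
    ring
  rw [e1, ← sum_subset (subset_univ (pt A n true true)) fun e _ he => by rw [hW e he]; simp]
  refine sum_le_sum fun e _ => ?_
  nlinarith [sq_nonneg ((∑ z ∈ O, rs e z * sig A z) - ∑ z ∈ O, rs e z * W z)]

end Pool.Agent.MP_36f78e_lc.H70
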